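import Pool.Agent.H207.BT.Stm
import Pool.Agent.H190.HY211.SOLVE

/-!
# BT PULL: pulling back moving points along the orbit of a critical value
-/

set_option autoImplicit false

open Topology Filter Metric Set

namespace Pool.Agent.H661.BT207

open Pool.Agent.H207.BT Pool.Agent.H211.HY

variable {k : ℕ}

/-- the first coordinates -/
def pr (S : Fin (k + 1) → ℂ) : Fin k → ℂ := fun j => S j.castSucc

/-- the point with the last coordinate `t` -/
def mk (s : Fin k → ℂ) (t : ℂ) : Fin (k + 1) → ℂ := Fin.snoc (α := fun _ => ℂ) s t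

theorem pr_mk (s : Fin k → ℂ) (t : ℂ) : pr (mk s t) = s := by
  funext j
  simp [pr, mk]

theorem mk_last (s : Fin k → ℂ) (t : ℂ) : mk s t (Fin.last k) = t := by
  simp [mk]

theorem pr_zero : pr (0 : Fin (k + 1) → ℂ) = 0 := rfl

theorem norm_pr (S : Fin (k + 1) → ℂ) : ‖pr S‖ ≤ ‖S‖ :=
  (pi_norm_le_iff_of_nonneg (norm_nonneg _)).2 fun j => norm_le_pi_norm S j.castSucc

theorem pr_mem {S : Fin (k + 1) → ℂ} {r : ℝ} (h : S ∈ ball (0 : Fin (k + 1) → ℂ) r) :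
    pr S ∈ ball (0 : Fin k → ℂ) r := by
  rw [mem_ball_zero_iff] at h ⊢
  exact (norm_pr S).trans_lt h

theorem mk_sub (s s' : Fin k → ℂ) (t t' : ℂ) : mk s t - mk s' t' = mk (s - s') (t - t') := by
  funext j
  refine Fin.lastCases ?_ (fun j => ?_) j
  · simp [mk]
  · simp [mk]

theorem norm_mk (s : Fin k → ℂ) (t : ℂ) : ‖mk s t‖ ≤ max ‖s‖ ‖t‖ := by
  refine (pi_norm_le_iff_of_nonneg (le_max_of_le_left (norm_nonneg _))).2 fun j => ?_
  refine Fin.lastCases ?_ (fun j => ?_) j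
  · rw [mk_last]
    exact le_max_right _ _
  · have h1 : mk s t j.castSucc = s j := by simp [mk]
    rw [h1]
    exact (norm_le_pi_norm s j).trans (le_max_left _ _)

theorem le_norm_mk (s : Fin k → ℂ) (t : ℂ) : ‖s‖ ≤ ‖mk s t‖ := by
  have := norm_pr (mk s t)
  rwa [pr_mk] at this

/-- the first coordinates, as a continuous linear map -/
noncomputable def prL (k : ℕ) : (Fin (k + 1) → ℂ) →L[ℂ] (Fin k → ℂ) :=
  ContinuousLinearMap.pi fun j => ContinuousLinearMap.proj j.castSucc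

theorem prL_apply (S : Fin (k + 1) → ℂ) : prL k S = pr S := rfl

theorem pr_hasFDerivAt (S : Fin (k + 1) → ℂ) :
    HasFDerivAt (𝕜 := ℂ) (pr : (Fin (k + 1) → ℂ) → Fin k → ℂ) (prL k) S := (prL k).hasFDerivAt

/-- the extended family -/
def fh (f : ℕ → (Fin k → ℂ) → ℂ → ℂ) : ℕ → (Fin (k + 1) → ℂ) → ℂ → ℂ := fun n S w => f n (pr S) w

/-- the extended critical value -/
noncomputable def vh (i : Fin k) (κ : ℂ) (v : (Fin k → ℂ) → ℂ) : (Fin (k + 1) → ℂ) → ℂ :=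
  fun S => v (pr S) + S (Fin.last k) - κ * pr S i

theorem DD_fh (f : ℕ → (Fin k → ℂ) → ℂ → ℂ) (z : ℕ → ℂ) (n : ℕ) : DD (fh f) z n = DD f z n := rfl

theorem vh_hasFDerivAt {i : Fin k} {κ : ℂ} {v : (Fin k → ℂ) → ℂ} {S : Fin (k + 1) → ℂ}
    {v' : (Fin k → ℂ) →L[ℂ] ℂ} (h : HasFDerivAt v v' (pr S)) :
    HasFDerivAt (vh i κ v) (v'.comp (prL k) + ContinuousLinearMap.proj (Fin.last k) -
      κ • (ContinuousLinearMap.proj (R := ℂ) (φ := fun _ : Fin k => ℂ) i).comp (prL k)) S := by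
  have h1 : HasFDerivAt (fun S => v (pr S)) (v'.comp (prL k)) S := h.comp S (pr_hasFDerivAt S)
  have h2 : HasFDerivAt (fun S : Fin (k + 1) → ℂ => S (Fin.last k))
      (ContinuousLinearMap.proj (R := ℂ) (φ := fun _ : Fin (k + 1) => ℂ) (Fin.last k)) S :=
    (ContinuousLinearMap.proj (R := ℂ) (φ := fun _ : Fin (k + 1) => ℂ) (Fin.last k)).hasFDerivAt
  have h3 : HasFDerivAt (fun S : Fin (k + 1) → ℂ => κ * pr S i)
      (κ • (ContinuousLinearMap.proj (R := ℂ) (φ := fun _ : Fin k => ℂ) i).comp (prL k)) S :=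
    ((ContinuousLinearMap.proj (R := ℂ) (φ := fun _ : Fin k => ℂ) i).comp (prL k)).hasFDerivAt.const_mul κ
  exact (h1.add h2).sub h3

theorem good_ext {i : Fin k} {f : ℕ → (Fin k → ℂ) → ℂ → ℂ} {v : (Fin k → ℂ) → ℂ} {z : ℕ → ℂ}
    {x : ℕ → ℝ} {ρ C c μ : ℝ} {κ : ℂ} (h : Good i f v z x ρ C c μ κ) :
    Good (Fin.last k) (fh f) (vh i κ v) z x ρ (C + ρ + ‖κ‖ * ρ) c μ 1 := by
  have hρ := h.ρ0
  have hC := h.C1
  have hκρ : 0 ≤ ‖κ‖ * ρ := by positivity
  have hle : C ≤ C + ρ + ‖κ‖ * ρ := by linarith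
  have hvd : ∀ s ∈ ball (0 : Fin k → ℂ) ρ, DifferentiableAt ℂ v s := fun s hs =>
    h.vd.differentiableAt (isOpen_ball.mem_nhds hs)
  refine ⟨hρ, by linarith, h.c0, h.μ1, one_ne_zero, ?_, ?_, ?_, fun n => h.fz n, ?_, ?_, h.xx,
    ?_, ?_, h.gr, ?_⟩
  · show v (pr 0) + (0 : Fin (k + 1) → ℂ) (Fin.last k) - κ * pr 0 i = z 0
    rw [pr_zero, h.v0]
    simp
  · intro S hS
    exact (vh_hasFDerivAt (hvd _ (pr_mem hS)).hasFDerivAt).differentiableAt.differentiableWithinAt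
  · intro S hS
    have h1 := h.vb _ (pr_mem hS)
    have hS' : ‖S‖ < ρ := mem_ball_zero_iff.1 hS
    have h2 : ‖S (Fin.last k)‖ ≤ ρ := (norm_le_pi_norm S _).trans hS'.le
    have h3 : ‖pr S i‖ ≤ ρ := (norm_le_pi_norm (pr S) i).trans ((norm_pr S).trans hS'.le)
    have h4 : ‖κ * pr S i‖ ≤ ‖κ‖ * ρ := by
      rw [norm_mul]
      exact mul_le_mul_of_nonneg_left h3 (norm_nonneg _)
    calc ‖v (pr S) + S (Fin.last k) - κ * pr S i‖ ≤ ‖v (pr S) + S (Fin.last k)‖ + ‖κ * pr S i‖ :=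
          norm_sub_le _ _
      _ ≤ ‖v (pr S)‖ + ‖S (Fin.last k)‖ + ‖κ * pr S i‖ := by
          gcongr
          exact norm_add_le _ _
      _ ≤ C + ρ + ‖κ‖ * ρ := by linarith
  · intro n
    have h1 : DifferentiableOn ℂ (fun p : (Fin (k + 1) → ℂ) × ℂ => (pr p.1, p.2))
        (ball 0 ρ ×ˢ ball (z n) ρ) := by
      refine DifferentiableOn.prodMk ?_ differentiableOn_snd
      exact ((prL k).differentiable.comp differentiable_fst).differentiableOn
    exact (h.fd n).comp h1 fun p hp => ⟨pr_mem hp.1, hp.2⟩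
  · intro n S hS w hw
    exact (h.fb n _ (pr_mem hS) w hw).trans hle
  · intro n
    refine ⟨(h.dx n).1, (h.dx n).2.trans ?_⟩
    exact mul_le_mul_of_nonneg_right hle (h.xx n).1.le
  · intro n S hS w hw hx
    have hx0 := (h.xx n).1
    have hpr := norm_pr S
    have h1 : ‖pr S‖ + ‖w - z n‖ ≤ x n / C := by
      have h2 : x n / (C + ρ + ‖κ‖ * ρ) ≤ x n / C :=
        div_le_div_of_nonneg_left hx0.le (by linarith) hle
      linarith
    refine (h.ds n _ (pr_mem hS) w hw h1).trans ?_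
    show C * ‖deriv (f n 0) (z n)‖ * ((‖pr S‖ + ‖w - z n‖) / x n) ≤
      (C + ρ + ‖κ‖ * ρ) * ‖deriv (f n 0) (z n)‖ * ((‖S‖ + ‖w - z n‖) / x n)
    gcongr
  · intro b
    have h1 := h.fn (pr b)
    have h0 : (0 : Fin k → ℂ) ∈ ball (0 : Fin k → ℂ) ρ := mem_ball_self hρ
    have h2 : fderiv ℂ (vh i κ v) 0 b = fderiv ℂ v 0 (pr b) + b (Fin.last k) - κ * pr b i := by
      have h3 := vh_hasFDerivAt (i := i) (κ := κ) (S := 0) (hvd 0 h0).hasFDerivAt
      rw [h3.fderiv]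
      rfl
    have h4 : ∀ j, fderiv ℂ (fun S => fh f j S (z j)) 0 b = fderiv ℂ (fun s => f j s (z j)) 0 (pr b) := by
      intro j
      have h5 : DifferentiableAt ℂ (fun p : (Fin k → ℂ) × ℂ => f j p.1 p.2) (0, z j) :=
        (h.fd j).differentiableAt ((isOpen_ball.prod isOpen_ball).mem_nhds ⟨h0, mem_ball_self hρ⟩)
      have h6 : DifferentiableAt ℂ (fun s : Fin k → ℂ => f j s (z j)) 0 :=
        DifferentiableAt.comp (g := fun p : (Fin k → ℂ) × ℂ => f j p.1 p.2)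
          (f := fun s : Fin k → ℂ => (s, z j)) 0 h5
          (differentiableAt_id.prodMk (differentiableAt_const _))
      have h7 : HasFDerivAt (fun S => fh f j S (z j))
          ((fderiv ℂ (fun s => f j s (z j)) 0).comp (prL k)) 0 :=
        HasFDerivAt.comp (g := fun s : Fin k → ℂ => f j s (z j)) (0 : Fin (k + 1) → ℂ)
          h6.hasFDerivAt (pr_hasFDerivAt 0)
      rw [h7.fderiv]
      rfl
    have h8 : (fun n : ℕ => fderiv ℂ (vh i κ v) 0 b +
        ∑ j ∈ Finset.range n, fderiv ℂ (fun S => fh f j S (z j)) 0 b / DD (fh f) z (j + 1)) =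
        fun n : ℕ => (fderiv ℂ v 0 (pr b) +
          ∑ j ∈ Finset.range n, fderiv ℂ (fun s => f j s (z j)) 0 (pr b) / DD f z (j + 1)) +
            (b (Fin.last k) - κ * pr b i) := by
      funext n
      rw [h2]
      simp only [h4, DD_fh]
      ring
    rw [h8]
    have h9 := h1.add_const (b (Fin.last k) - κ * pr b i)
    have h10 : κ * pr b i + (b (Fin.last k) - κ * pr b i) = 1 * b (Fin.last k) := by ring
    rw [h10] at h9
    exact h9

theorem YY_zero {i : Fin k} {f : ℕ → (Fin k → ℂ) → ℂ → ℂ} {v : (Fin k → ℂ) → ℂ} {z : ℕ → ℂ}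
    {x : ℕ → ℝ} {ρ C c μ : ℝ} {κ : ℂ} (h : Good i f v z x ρ C c μ κ) (n : ℕ) : YY f v n 0 = z n := by
  induction n with
  | zero => exact h.v0
  | succ n ih =>
    show f n 0 (YY f v n 0) = z (n + 1)
    rw [ih, h.fz]

theorem YY_mk (i : Fin k) (κ : ℂ) (f : ℕ → (Fin k → ℂ) → ℂ → ℂ) (v w : (Fin k → ℂ) → ℂ) (s : Fin k → ℂ)
    (t : ℂ) (hw : w s = v s + t - κ * s i) (n : ℕ) :
    YY f w n s = YY (fh f) (vh i κ v) n (mk s t) := by
  induction n with
  | zero =>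
    show w s = v (pr (mk s t)) + mk s t (Fin.last k) - κ * pr (mk s t) i
    rw [pr_mk, mk_last, hw]
  | succ n ih =>
    show f n s (YY f w n s) = f n (pr (mk s t)) (YY (fh f) (vh i κ v) n (mk s t))
    rw [ih, pr_mk]

/-- the contraction principle on a disc -/
theorem fixed_disc {R : ℝ} (hR : 0 ≤ R) (Φ : ℂ → ℂ) (hmap : ∀ t : ℂ, ‖t‖ ≤ R → ‖Φ t‖ ≤ R)
    (hlip : ∀ t t' : ℂ, ‖t‖ ≤ R → ‖t'‖ ≤ R → ‖Φ t' - Φ t‖ ≤ 1 / 2 * ‖t' - t‖) :
    ∃ t : ℂ, ‖t‖ ≤ R ∧ Φ t = t := by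
  have hmaps : MapsTo Φ (closedBall 0 R) (closedBall 0 R) := by
    intro s hs
    rw [mem_closedBall_zero_iff] at hs ⊢
    exact hmap s hs
  have hK : ContractingWith (1 / 2 : NNReal) (hmaps.restrict Φ _ _) := by
    refine ⟨by norm_num, LipschitzWith.of_dist_le_mul fun a b => ?_⟩
    rw [Subtype.dist_eq, Subtype.dist_eq, dist_eq_norm, dist_eq_norm]
    have ha : ‖(a : ℂ)‖ ≤ R := mem_closedBall_zero_iff.1 a.2
    have hb : ‖(b : ℂ)‖ ≤ R := mem_closedBall_zero_iff.1 b.2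
    have h1 := hlip b a hb ha
    have h2 : ((1 / 2 : NNReal) : ℝ) = 1 / 2 := by norm_num
    rw [h2]
    exact h1
  obtain ⟨y, hy, hfy, -⟩ := hK.exists_fixedPoint' (isClosed_closedBall.isComplete) hmaps
    (x := 0) (mem_closedBall_self hR) (edist_ne_top _ _)
  exact ⟨y, mem_closedBall_zero_iff.1 hy, hfy⟩

theorem t_PULL (hfol : Pool.Agent.H207.BT.S_FOL2) : Pool.Agent.H207.BT.S_PULL := by
  classical
  intro k i f v z x ρ C c μ κ hG
  have hρ := hG.ρ0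
  have hC := hG.C1
  have hGe := good_ext hG
  obtain ⟨θ, hθ, r₁, hr₁, N₀, hF⟩ := hfol (k + 1) (Fin.last k) (fh f) (vh i κ v) z x ρ
    (C + ρ + ‖κ‖ * ρ) c μ 1 hGe (1 / 64) (by norm_num) (1 / (2 * C)) (by positivity)
  have hCρ : 0 ≤ 4 * C / ρ := by positivity
  refine ⟨16 + 4 * C / ρ + ‖κ‖, by linarith [norm_nonneg κ], θ, hθ, min r₁ ρ, lt_min hr₁ hρ, N₀,
    fun δ N hδ hδr hN hsum u r Λ hr hΛ hKr hKΛ hu hu0 => ?_⟩
  set K₀ : ℝ := 16 + 4 * C / ρ + ‖κ‖ with hK₀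
  have hK16 : 16 ≤ K₀ := by rw [hK₀]; linarith [norm_nonneg κ]
  set D : ℂ := DD f z N with hD
  have hDne : D ≠ 0 := by
    rw [hD]
    unfold DD
    exact Finset.prod_ne_zero_iff.2 fun j _ => (hG.dx j).1
  have hDp : 0 < ‖D‖ := norm_pos_iff.2 hDne
  obtain ⟨hYd, hY⟩ := hF δ N hδ (hδr.trans (min_le_left _ _)) hN hsum
  -- the error
  set e : (Fin (k + 1) → ℂ) → ℂ := fun S => YY (fh f) (vh i κ v) N S - z N - D * S (Fin.last k)
    with he
  have hed : DifferentiableOn ℂ e (ball 0 δ) := by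
    refine (hYd.sub (differentiableOn_const _)).sub ?_
    refine (differentiableOn_const _).mul ?_
    exact (differentiable_apply (Fin.last k)).differentiableOn
  have heb : ∀ S ∈ ball (0 : Fin (k + 1) → ℂ) δ, ‖e S‖ ≤ δ * ‖D‖ / 64 := by
    intro S hS
    have h1 := (hY S hS).2
    rw [DD_fh, one_mul] at h1
    have h2 : (1 : ℝ) / 64 * δ * ‖D‖ = δ * ‖D‖ / 64 := by ring
    rw [← h2]
    exact h1
  have hel : ∀ S S' : Fin (k + 1) → ℂ, ‖S‖ ≤ δ / 2 → ‖S'‖ ≤ δ / 2 →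
      ‖e S' - e S‖ ≤ ‖D‖ / 16 * ‖S' - S‖ := by
    intro S S' hS hS'
    have h1 := Pool.Agent.H190.HY211.lip_of_bound hδ (by positivity) hed heb S S' hS hS'
    refine h1.trans (le_of_eq ?_)
    field_simp
    ring
  have he0 : e 0 = 0 := by
    show YY (fh f) (vh i κ v) N 0 - z N - D * (0 : Fin (k + 1) → ℂ) (Fin.last k) = 0
    rw [YY_zero hGe]
    simp
  -- sizes
  have hrδ : 16 * r ≤ δ := le_trans (mul_le_mul_of_nonneg_right hK16 hr.le) hKr
  have hΛr : 16 * (Λ * r) ≤ δ * ‖D‖ := by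
    refine le_trans ?_ hKΛ
    rw [mul_assoc]
    exact mul_le_mul_of_nonneg_right hK16 (by positivity)
  have hu0' : 16 * ‖u 0 - z N‖ ≤ δ * ‖D‖ :=
    le_trans (mul_le_mul_of_nonneg_right hK16 (norm_nonneg _)) hu0
  have h0r : (0 : Fin k → ℂ) ∈ ball (0 : Fin k → ℂ) r := mem_ball_self hr
  have husz : ∀ s ∈ ball (0 : Fin k → ℂ) r, ‖u s - z N‖ ≤ δ * ‖D‖ / 8 := by
    intro s hs
    have h1 := hu s hs 0 h0r
    rw [sub_zero] at h1
    have h2 : Λ * ‖s‖ ≤ Λ * r := mul_le_mul_of_nonneg_left (mem_ball_zero_iff.1 hs).le hΛ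
    have h3 : ‖u s - z N‖ ≤ ‖u s - u 0‖ + ‖u 0 - z N‖ := by
      have h4 : u s - z N = (u s - u 0) + (u 0 - z N) := by ring
      rw [h4]
      exact norm_add_le _ _
    linarith
  have hmksz : ∀ s ∈ ball (0 : Fin k → ℂ) r, ∀ t : ℂ, ‖t‖ ≤ δ / 4 → ‖mk s t‖ ≤ δ / 4 := by
    intro s hs t ht
    refine (norm_mk s t).trans (max_le ?_ ht)
    have := (mem_ball_zero_iff.1 hs).le
    linarith
  have hmkb : ∀ s ∈ ball (0 : Fin k → ℂ) r, ∀ t : ℂ, ‖t‖ ≤ δ / 4 →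
      mk s t ∈ ball (0 : Fin (k + 1) → ℂ) δ := by
    intro s hs t ht
    rw [mem_ball_zero_iff]
    have := hmksz s hs t ht
    linarith
  -- the fixed points
  have hfix : ∀ s : Fin k → ℂ, ∃ t : ℂ, s ∈ ball (0 : Fin k → ℂ) r →
      ‖t‖ ≤ δ / 4 ∧ D * t + e (mk s t) = u s - z N := by
    intro s
    by_cases hs : s ∈ ball (0 : Fin k → ℂ) r
    swap
    · exact ⟨0, fun h => absurd h hs⟩
    obtain ⟨t, ht, htf⟩ := fixed_disc (R := δ / 4) (by positivity)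
      (fun t => (u s - z N - e (mk s t)) / D) (by
        intro t ht
        rw [norm_div, div_le_iff₀ hDp]
        have h1 := norm_sub_le (u s - z N) (e (mk s t))
        have h2 := husz s hs
        have h3 := heb _ (hmkb s hs t ht)
        have h4 : 0 < δ * ‖D‖ := mul_pos hδ hDp
        have h5 : δ / 4 * ‖D‖ = δ * ‖D‖ / 4 := by ring
        rw [h5]
        linarith) (by
        intro t t' ht ht'
        rw [← sub_div, norm_div, div_le_iff₀ hDp]
        have h1 : u s - z N - e (mk s t') - (u s - z N - e (mk s t)) =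
          -(e (mk s t') - e (mk s t)) := by ring
        rw [h1, norm_neg]
        have h2 := hel (mk s t) (mk s t') ((hmksz s hs t ht).trans (by linarith))
          ((hmksz s hs t' ht').trans (by linarith))
        have h3 : ‖mk s t' - mk s t‖ ≤ ‖t' - t‖ := by
          rw [mk_sub, sub_self]
          refine (norm_mk _ _).trans (max_le ?_ le_rfl)
          rw [norm_zero]
          exact norm_nonneg _
        have h4 : ‖D‖ / 16 * ‖mk s t' - mk s t‖ ≤ ‖D‖ / 16 * ‖t' - t‖ :=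
          mul_le_mul_of_nonneg_left h3 (by positivity)
        have h5 : 0 ≤ ‖D‖ * ‖t' - t‖ := by positivity
        nlinarith)
    refine ⟨t, fun _ => ⟨ht, ?_⟩⟩
    have h1 : (u s - z N - e (mk s t)) / D = t := htf
    rw [div_eq_iff hDne] at h1
    linear_combination -h1
  choose t ht using hfix
  set w : (Fin k → ℂ) → ℂ := fun s => v s + t s - κ * s i with hw
  have hw0 : w 0 - z 0 = t 0 := by
    show v 0 + t 0 - κ * (0 : Fin k → ℂ) i - z 0 = t 0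
    rw [hG.v0]
    simp
  have hYw : ∀ s n, YY f w n s = YY (fh f) (vh i κ v) n (mk s (t s)) := fun s n =>
    YY_mk i κ f v w s (t s) rfl n
  have htlip : ∀ s ∈ ball (0 : Fin k → ℂ) r, ∀ s' ∈ ball (0 : Fin k → ℂ) r,
      ‖t s - t s'‖ ≤ (1 + 2 * Λ / ‖D‖) * ‖s - s'‖ := by
    intro s hs s' hs'
    obtain ⟨h1, h2⟩ := ht s hs
    obtain ⟨h3, h4⟩ := ht s' hs'
    have h5 := hel (mk s' (t s')) (mk s (t s)) ((hmksz s' hs' _ h3).trans (by linarith))
      ((hmksz s hs _ h1).trans (by linarith))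
    have h6 : ‖mk s (t s) - mk s' (t s')‖ ≤ ‖s - s'‖ + ‖t s - t s'‖ := by
      rw [mk_sub]
      refine (norm_mk _ _).trans (max_le ?_ ?_)
      · linarith [norm_nonneg (t s - t s')]
      · linarith [norm_nonneg (s - s')]
    have h7 : D * (t s - t s') = (u s - u s') - (e (mk s (t s)) - e (mk s' (t s'))) := by
      linear_combination h2 - h4
    have h8 : ‖D‖ * ‖t s - t s'‖ ≤ ‖u s - u s'‖ + ‖e (mk s (t s)) - e (mk s' (t s'))‖ := by
      rw [← norm_mul, h7]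
      exact norm_sub_le _ _
    have h9 := hu s hs s' hs'
    have h10 : ‖D‖ / 16 * ‖mk s (t s) - mk s' (t s')‖ ≤ ‖D‖ / 16 * (‖s - s'‖ + ‖t s - t s'‖) :=
      mul_le_mul_of_nonneg_left h6 (by positivity)
    have h11 : ‖D‖ * ‖t s - t s'‖ ≤ (‖D‖ + 2 * Λ) * ‖s - s'‖ := by
      have h12 : 0 ≤ ‖D‖ * ‖s - s'‖ := by positivity
      have h13 : 0 ≤ Λ * ‖s - s'‖ := by positivity
      have h14 : 0 ≤ ‖D‖ * ‖t s - t s'‖ := by positivity
      nlinarith
    have h15 : (1 + 2 * Λ / ‖D‖) * ‖s - s'‖ = (‖D‖ + 2 * Λ) * ‖s - s'‖ / ‖D‖ := by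
      field_simp
    rw [h15, le_div_iff₀ hDp, mul_comm]
    exact h11
  have he0' : ‖e (mk 0 (t 0))‖ ≤ ‖D‖ / 16 * ‖t 0‖ := by
    have h1 := hel 0 (mk 0 (t 0)) (by rw [norm_zero]; positivity)
      ((hmksz 0 h0r _ (ht 0 h0r).1).trans (by linarith))
    rw [he0, sub_zero, sub_zero] at h1
    refine h1.trans (mul_le_mul_of_nonneg_left ?_ (by positivity))
    refine (norm_mk _ _).trans (max_le ?_ le_rfl)
    rw [norm_zero]
    exact norm_nonneg _
  have ht0 := (ht 0 h0r).2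
  refine ⟨w, fun s hs s' hs' => ?_, ?_, ?_, fun s hs => ⟨?_, fun n hn => ?_⟩⟩
  · -- the Lipschitz estimate
    have hrρ : r ≤ ρ / 2 := by
      have := hδr.trans (min_le_right _ _)
      linarith
    have h1 : ‖v s - v s'‖ ≤ 4 * C / ρ * ‖s - s'‖ :=
      Pool.Agent.H190.HY211.lip_of_bound hρ (by linarith) hG.vd hG.vb s' s
        ((mem_ball_zero_iff.1 hs').le.trans hrρ) ((mem_ball_zero_iff.1 hs).le.trans hrρ)
    have h2 := htlip s hs s' hs'
    have h3 : ‖κ * s i - κ * s' i‖ ≤ ‖κ‖ * ‖s - s'‖ := by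
      rw [← mul_sub, norm_mul]
      exact mul_le_mul_of_nonneg_left (norm_le_pi_norm (s - s') i) (norm_nonneg _)
    have h4 : ‖w s - w s'‖ ≤ ‖v s - v s'‖ + ‖t s - t s'‖ + ‖κ * s i - κ * s' i‖ := by
      have h5 : w s - w s' = (v s - v s') + (t s - t s') - (κ * s i - κ * s' i) := by
        rw [hw]
        ring
      rw [h5]
      exact (norm_sub_le _ _).trans (add_le_add (norm_add_le _ _) le_rfl)
    have h6 : 2 * Λ / ‖D‖ ≤ K₀ * Λ / ‖D‖ := by
      gcongr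
      linarith
    have h7 : (4 * C / ρ + (1 + 2 * Λ / ‖D‖) + ‖κ‖) * ‖s - s'‖ ≤
        (K₀ + K₀ * Λ / ‖D‖) * ‖s - s'‖ := by
      refine mul_le_mul_of_nonneg_right ?_ (norm_nonneg _)
      rw [hK₀] at h6 ⊢
      linarith
    calc ‖w s - w s'‖ ≤ 4 * C / ρ * ‖s - s'‖ + (1 + 2 * Λ / ‖D‖) * ‖s - s'‖ + ‖κ‖ * ‖s - s'‖ := by
          linarith
      _ = (4 * C / ρ + (1 + 2 * Λ / ‖D‖) + ‖κ‖) * ‖s - s'‖ := by ring
      _ ≤ _ := h7
  · rw [hw0, ← ht0]
    have h1 := norm_add_le (D * t 0) (e (mk 0 (t 0)))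
    rw [norm_mul] at h1
    have h2 : 16 * (‖D‖ * ‖t 0‖) ≤ K₀ * (‖D‖ * ‖t 0‖) :=
      mul_le_mul_of_nonneg_right hK16 (by positivity)
    have h3 : 0 ≤ ‖D‖ * ‖t 0‖ := by positivity
    rw [mul_assoc]
    linarith
  · rw [hw0]
    have h1 : D * t 0 = (u 0 - z N) - e (mk 0 (t 0)) := by linear_combination ht0
    have h2 : ‖D‖ * ‖t 0‖ ≤ ‖u 0 - z N‖ + ‖e (mk 0 (t 0))‖ := by
      rw [← norm_mul, h1]
      exact norm_sub_le _ _
    have h3 : 16 * ‖u 0 - z N‖ ≤ K₀ * ‖u 0 - z N‖ :=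
      mul_le_mul_of_nonneg_right hK16 (norm_nonneg _)
    have h4 := norm_nonneg (u 0 - z N)
    linarith
  · rw [hYw]
    have h1 := (ht s hs).2
    have h2 : e (mk s (t s)) = YY (fh f) (vh i κ v) N (mk s (t s)) - z N -
      D * mk s (t s) (Fin.last k) := rfl
    rw [mk_last] at h2
    linear_combination h1 - h2
  · rw [hYw]
    have h1 := ((hY _ (hmkb s hs _ (ht s hs).1)).1 n hn)
    refine ⟨h1.1, ?_⟩
    have h2 := le_norm_mk s (t s)
    have h3 : (1 : ℝ) / (2 * C) * x n = x n / (2 * C) := by ring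
    rw [← h3]
    linarith [h1.2]

end Pool.Agent.H661.BT207
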